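import Pool.Agent.Helper5.KPA.StN

/-!
# PROJECT KP (MP_26be5b_ag), chapter A: module ABD (bounds by eigenvalues)
-/

set_option autoImplicit false

namespace Pool.Agent.Helper99.KPA

open Pool.Agent.Helper5.KPA Pool.Agent.Helper52.KP MvPolynomial

section

variable {S : Type} [CommRing S] [Algebra ℂ S] {G : ℕ → Submodule ℂ S}

private lemma pow_mem' (hG : GrA G) {b : S} (hb : b ∈ G 1) (k : ℕ) : b ^ k ∈ G k := by
  induction k with
  | zero =>
    rw [pow_zero, hG.zero]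
    exact Submodule.mem_span_singleton_self 1
  | succ k ih =>
    rw [pow_succ]
    exact hG.mul k 1 _ _ ih hb

private lemma bd_one (hG : GrA G) {e : ℕ} {a : Fin e → S} (hN : NN G a) {b : S} (hb : b ∈ G 1) :
    ∃ K : ℝ, 0 ≤ K ∧ ∀ φ : S →ₐ[ℂ] ℂ, ‖φ b‖ ≤ K * ∑ j, ‖φ (a j)‖ := by
  obtain ⟨D, hD⟩ := hN.fg
  set k := D + 1 with hk
  have hfd := hG.fd k
  have hfg : (G k).FG := Module.Finite.iff_fg.mp hfd
  obtain ⟨Y, hY⟩ := hfg
  have hYG : ∀ y ∈ Y, y ∈ G k := fun y hy => by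
    rw [← hY]
    exact Submodule.subset_span hy
  have h1 : ∀ y ∈ Y, ∃ c : Fin e → S → ℂ, b * y = ∑ j, a j * ∑ z ∈ Y, c j z • z := by
    intro y hy
    have h2 : b * y ∈ G (k + 1) := by
      rw [mul_comm]
      exact hG.mul k 1 _ _ (hYG y hy) hb
    obtain ⟨y', hy', h3⟩ := hD k (by omega) _ h2
    have h4 : ∀ j, ∃ f : S → ℂ, ∑ z ∈ Y, f z • z = y' j := by
      intro j
      have h5 := hy' j
      rw [← hY, Submodule.mem_span_finset] at h5
      obtain ⟨f, -, hf⟩ := h5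
      exact ⟨f, hf⟩
    choose f hf using h4
    refine ⟨f, ?_⟩
    rw [h3]
    exact Finset.sum_congr rfl fun j _ => by rw [hf j]
  choose! c hc using h1
  refine ⟨∑ y ∈ Y, ∑ j, ∑ z ∈ Y, ‖c y j z‖, by positivity, ?_⟩
  set K := ∑ y ∈ Y, ∑ j, ∑ z ∈ Y, ‖c y j z‖ with hK
  intro φ
  have hK0 : 0 ≤ K := by positivity
  have hs0 : 0 ≤ ∑ j, ‖φ (a j)‖ := by positivity
  by_cases hz : ∀ y ∈ Y, φ y = 0
  · have h2 : φ (b ^ k) = 0 := by
      have h3 := pow_mem' hG hb k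
      rw [← hY] at h3
      refine Submodule.span_induction (p := fun x _ => φ x = 0) ?_ ?_ ?_ ?_ h3
      · intro x hx
        exact hz x hx
      · exact map_zero φ
      · intro x y _ _ hx hy
        rw [map_add, hx, hy, add_zero]
      · intro r x _ hx
        rw [map_smul, hx, smul_zero]
    rw [map_pow] at h2
    have h4 : φ b = 0 := pow_eq_zero_iff (by omega) |>.mp h2
    rw [h4, norm_zero]
    exact mul_nonneg hK0 hs0
  · push Not at hz
    obtain ⟨y1, hy1, hne⟩ := hz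
    obtain ⟨y0, hy0, hmax⟩ := Y.exists_max_image (fun y => ‖φ y‖) ⟨y1, hy1⟩
    have hpos : 0 < ‖φ y0‖ := lt_of_lt_of_le (norm_pos_iff.mpr hne) (hmax y1 hy1)
    have h5 : ‖φ b‖ * ‖φ y0‖ ≤ K * (∑ j, ‖φ (a j)‖) * ‖φ y0‖ := by
      rw [← norm_mul, ← map_mul, hc y0 hy0, map_sum]
      calc ‖∑ j, φ (a j * ∑ z ∈ Y, c y0 j z • z)‖
          ≤ ∑ j, ‖φ (a j * ∑ z ∈ Y, c y0 j z • z)‖ := norm_sum_le _ _
        _ ≤ ∑ j, ‖φ (a j)‖ * (K * ‖φ y0‖) := by
            refine Finset.sum_le_sum fun j _ => ?_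
            rw [map_mul, norm_mul, map_sum]
            refine mul_le_mul_of_nonneg_left ?_ (norm_nonneg _)
            calc ‖∑ z ∈ Y, φ (c y0 j z • z)‖ ≤ ∑ z ∈ Y, ‖φ (c y0 j z • z)‖ := norm_sum_le _ _
              _ ≤ ∑ z ∈ Y, ‖c y0 j z‖ * ‖φ y0‖ := by
                  refine Finset.sum_le_sum fun z hz => ?_
                  rw [map_smul, norm_smul]
                  exact mul_le_mul_of_nonneg_left (hmax z hz) (norm_nonneg _)
              _ = (∑ z ∈ Y, ‖c y0 j z‖) * ‖φ y0‖ := by rw [Finset.sum_mul]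
              _ ≤ K * ‖φ y0‖ := by
                  refine mul_le_mul_of_nonneg_right ?_ (norm_nonneg _)
                  calc ∑ z ∈ Y, ‖c y0 j z‖ ≤ ∑ j, ∑ z ∈ Y, ‖c y0 j z‖ :=
                        Finset.single_le_sum (f := fun j => ∑ z ∈ Y, ‖c y0 j z‖)
                          (fun j _ => by positivity) (Finset.mem_univ j)
                    _ ≤ K := Finset.single_le_sum (f := fun y => ∑ j, ∑ z ∈ Y, ‖c y j z‖)
                          (fun j _ => by positivity) hy0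
        _ = K * (∑ j, ‖φ (a j)‖) * ‖φ y0‖ := by
            rw [← Finset.sum_mul]
            ring
    exact le_of_mul_le_mul_right h5 hpos

end

/-- MODULE ABD (bounds by eigenvalues). -/
theorem hABD : StABD := by
  intro S _ _ _ G hG e a hN i
  induction i with
  | zero =>
    intro b hb
    rw [hG.zero, Submodule.mem_span_singleton] at hb
    obtain ⟨c, rfl⟩ := hb
    refine ⟨‖c‖, norm_nonneg _, fun φ => ?_⟩
    rw [map_smul, map_one, pow_zero, mul_one, norm_smul, norm_one, mul_one]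
  | succ i ih =>
    intro b hb
    rw [hG.gen i] at hb
    refine Submodule.span_induction (p := fun b _ => ∃ K : ℝ, 0 ≤ K ∧
      ∀ φ : S →ₐ[ℂ] ℂ, ‖φ b‖ ≤ K * (∑ j, ‖φ (a j)‖) ^ (i + 1)) ?_ ?_ ?_ ?_ hb
    · rintro _ ⟨x, hx, y, hy, rfl⟩
      obtain ⟨K, hK, h1⟩ := ih x hx
      obtain ⟨K', hK', h2⟩ := bd_one hG hN hy
      refine ⟨K * K', mul_nonneg hK hK', fun φ => ?_⟩
      rw [map_mul, norm_mul]
      calc ‖φ x‖ * ‖φ y‖ ≤ (K * (∑ j, ‖φ (a j)‖) ^ i) * (K' * ∑ j, ‖φ (a j)‖) :=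
            mul_le_mul (h1 φ) (h2 φ) (norm_nonneg _) (by positivity)
        _ = K * K' * (∑ j, ‖φ (a j)‖) ^ (i + 1) := by ring
    · exact ⟨0, le_rfl, fun φ => by rw [map_zero, norm_zero, zero_mul]⟩
    · rintro x y _ _ ⟨K, hK, h1⟩ ⟨K', hK', h2⟩
      refine ⟨K + K', add_nonneg hK hK', fun φ => ?_⟩
      rw [map_add, add_mul]
      exact (norm_add_le _ _).trans (add_le_add (h1 φ) (h2 φ))
    · rintro r x _ ⟨K, hK, h1⟩
      refine ⟨‖r‖ * K, mul_nonneg (norm_nonneg _) hK, fun φ => ?_⟩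
      rw [map_smul, norm_smul, mul_assoc]
      exact mul_le_mul_of_nonneg_left (h1 φ) (norm_nonneg _)

end Pool.Agent.Helper99.KPA
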